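import Pool.Agent.Helper20.QG.H3

/-!
# Small sets against the polynomial-time hierarchy: the diagonal predicate

The exponent `g` is the largest number for which `(g ^ (κ + 2) + 1) * g ^ (κ + 2)` is less than the
square root of the size and at most the bound `b` of the sizes of the sets; the formula finds it with
the help of a set.
-/

set_option autoImplicit false

namespace Pool.Agent.Helper14.SP

open FirstOrder Pool.Agent.Helper20.Spectra Pool.Agent.Helper14.SS Pool.Agent.Helper12.SS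
open Pool.Agent.Helper20.QG

/-- the number of digits needed for the exponent `γ` -/
def Wk (κ γ : ℕ) : ℕ := (γ ^ (κ + 2) + 1) * γ ^ (κ + 2)

lemma Wk_mono (κ : ℕ) {γ δ : ℕ} (h : γ ≤ δ) : Wk κ γ ≤ Wk κ δ := by
  unfold Wk
  have h1 := Nat.pow_le_pow_left h (κ + 2)
  exact Nat.mul_le_mul (by omega) h1

lemma le_Wk (κ γ : ℕ) : γ ≤ Wk κ γ := by
  unfold Wk
  have h1 : γ ≤ γ ^ (κ + 2) := Nat.le_self_pow (by omega) γ
  have h2 : 1 * γ ^ (κ + 2) ≤ (γ ^ (κ + 2) + 1) * γ ^ (κ + 2) :=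
    Nat.mul_le_mul_right _ (by omega)
  omega

/-- `Wk κ γ < B` and `Wk κ γ ≤ b`, with the help of a set -/
def Small (κ : ℕ) {n : ℕ} (b : ℕ) (B : Fin n) (γ : ℕ) : Prop :=
  ∃ U : Fin n, ((γ ^ (κ + 2) + 1) * γ ^ (κ + 2) = (U : ℕ) ∧ ((U : ℕ) < (B : ℕ) ∧
    ∃ X : Finset (Fin n), X.card ≤ b ∧ ∀ a, a < (U : ℕ) → inV X a))

lemma small_iff {κ n b γ : ℕ} {B : Fin n} :
    Small κ b B γ ↔ Wk κ γ < (B : ℕ) ∧ Wk κ γ ≤ b := by
  constructor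
  · rintro ⟨U, h1, h2, X, h3, h4⟩
    have h5 := card_of_initial h4
    unfold Wk
    rw [h1]
    exact ⟨h2, h5.trans h3⟩
  · rintro ⟨h1, h2⟩
    have h3 := B.is_lt
    obtain ⟨X, h4, h5⟩ := ex_initial (n := n) (U := Wk κ γ) (by omega)
    exact ⟨⟨Wk κ γ, by omega⟩, rfl, h1, X, h4.trans h2, h5⟩

lemma NS_small {k m : ℕ} (κ : ℕ) (iB : Fin k) {s : (Fin k → ℕ) → ℕ}
    (hs : Pool.Agent.Helper20.Spectra.IsPoly k s) :
    NS k m (fun _ b v _ => Small κ b (v iB) (s (vn v))) := by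
  unfold Small
  refine NS.ex (NS.and (NS.val (((hs.tail.pow (κ + 2)).add (pc 1)).mul
    (hs.tail.pow (κ + 2))) 0) (NS.and (NS.lt 0 iB.succ)
    (NS.exS (NS.alllt 0 (NS.inV (IsPoly.var 0) 0)))))

/-- the diagonal predicate -/
def DpS (P1 P3 : Pd 2 3) (κ : ℕ) : Pd 0 0 := fun n b _ _ =>
  ∃ B x g q M m0 k t a0 a1 : Fin n,
    ((∀ y : Fin n, ¬ (m0 : ℕ) < (y : ℕ)) ∧
    ((B : ℕ) * B + x = (m0 : ℕ) ∧
    (((x : ℕ) < 2 * (B : ℕ) + 1 ∧ 2 * (B : ℕ) + 1 < n) ∧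
    (Small κ b B (g : ℕ) ∧
    (¬ Small κ b B ((g : ℕ) + 1) ∧
    ((g : ℕ) ^ κ = (q : ℕ) ∧
    ((g : ℕ) ^ (κ + 2) = (M : ℕ) ∧
    (((k : ℕ) + t) ^ 2 + k = (x : ℕ) ∧
    (((a1 : ℕ) * B + a0 = (x : ℕ) + 1 ∧ (x : ℕ) + 1 < n) ∧
    ((a0 : ℕ) < (B : ℕ) ∧
    ((a1 : ℕ) < (B : ℕ) ∧
    ¬ ReqP P1 P3 b B M g q (a0 : ℕ) (a1 : ℕ) (k : ℕ) (t : ℕ))))))))))))

lemma NS_DpS {P1 P3 : Pd 2 3} (h1 : NS 2 3 P1) (h3 : NS 2 3 P3) (κ : ℕ) :
    NS 0 0 (DpS P1 P3 κ) := by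
  unfold DpS
  refine NS.ex (NS.ex (NS.ex (NS.ex (NS.ex (NS.ex (NS.ex (NS.ex (NS.ex (NS.ex ?_)))))))))
  -- `a1` 0, `a0` 1, `t` 2, `k` 3, `m0` 4, `M` 5, `q` 6, `g` 7, `x` 8, `B` 9
  have hr : Pool.Agent.Helper20.Spectra.IsPoly 10 (fun v => (v 3 + v 2) ^ 2 + v 3) :=
    (((IsPoly.var 3).add (IsPoly.var 2)).pow 2).add (IsPoly.var 3)
  refine NS.and (NS.all (NS.lt 5 0).not) ?_
  refine NS.and (NS.val (((IsPoly.var 9).mul (IsPoly.var 9)).add (IsPoly.var 8)) 4) ?_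
  refine NS.and (NS.plt (IsPoly.var 8) (((pc 2).mul (IsPoly.var 9)).add (pc 1))) ?_
  refine NS.and (NS_small κ 9 (IsPoly.var 7)) ?_
  refine NS.and (NS.not (NS_small κ 9 ((IsPoly.var 7).add (pc 1)))) ?_
  refine NS.and (NS.val ((IsPoly.var 7).pow κ) 6) ?_
  refine NS.and (NS.val ((IsPoly.var 7).pow (κ + 2)) 5) ?_
  refine NS.and (NS.val hr 8) ?_
  refine NS.and (NS.peq (((IsPoly.var 0).mul (IsPoly.var 9)).add (IsPoly.var 1))
    ((IsPoly.var 8).add (pc 1))) ?_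
  refine NS.and (NS.lt 1 9) ?_
  refine NS.and (NS.lt 0 9) ?_
  exact NS.not (NS_ReqP h1 h3 9 5 7 6 1 0 3 2)

lemma DpS_iff {P1 P3 : Pd 2 3} {e : ℕ} {EU : Set ℕ}
    (h1 : Ev P1 e SP) (h3 : Ev P3 e (S3 EU)) {κ n b B x g k t : ℕ}
    (h : Nb n b B x g κ e) (hg1 : Wk κ g < B) (hg2 : ¬ (Wk κ (g + 1) < B ∧ Wk κ (g + 1) ≤ b))
    (hr : (k + t) ^ 2 + k = x) (hkg : k ≤ g) (htg : t ≤ g)
    (v : Fin 0 → Fin n) (V : Fin 0 → Finset (Fin n)) :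
    DpS P1 P3 κ n b v V ↔
      ¬ (ux (((n + B ^ g) ^ 2 + n) ^ (k + 1)) t + B ^ (g ^ κ)) *
        (ux (((n + B ^ g) ^ 2 + n) ^ (k + 1)) t + B ^ (g ^ κ)) +
        ux (((n + B ^ g) ^ 2 + n) ^ (k + 1)) t ∈ EU := by
  have hg2B := h.g_two
  have hgM := h.g_lt
  have hqM := h.q_lt
  have hgq := h.g_le
  have hMM := h.two_le
  have hMB := h.hB
  have hMb := h.hb
  have hnn := h.n_lt
  have he := h.he
  have hn := h.hn
  have hx := h.hx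
  have hsq := h.sq
  have part2 : ∀ {Bf Mf gf qf : Fin n}, (Bf : ℕ) = B → (Mf : ℕ) = g ^ (κ + 2) → (gf : ℕ) = g →
      (qf : ℕ) = g ^ κ → ∀ {a0 a1 : ℕ}, a0 < B → a1 < B → a1 * B + a0 = x + 1 →
      (ReqP P1 P3 b Bf Mf gf qf a0 a1 k t ↔
        (ux (((n + B ^ g) ^ 2 + n) ^ (k + 1)) t + B ^ (g ^ κ)) *
        (ux (((n + B ^ g) ^ 2 + n) ^ (k + 1)) t + B ^ (g ^ κ)) +
        ux (((n + B ^ g) ^ 2 + n) ^ (k + 1)) t ∈ EU) := by
    intro Bf Mf gf qf eB eM eg eq a0 a1 h0 ha1 h01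
    have pr : Pr n b (Bf : ℕ) (Mf : ℕ) (gf : ℕ) e := by rw [eB, eM, eg]; exact h.pr
    have hm := h.m_lt hkg
    have hm0 := h.m_lt (Nat.zero_le g)
    rw [zero_add, pow_one] at hm0
    have := reqP_iff (q := qf) (a0 := a0) (a1 := a1) (k := k) (t := t) pr h1 h3 (by omega)
      (by omega) (by rw [eB, eM, eq]; exact h.pow (by omega) le_rfl) (by omega) (by omega)
      (by rw [eB, one_mul]; omega) (by omega) (by omega) (by omega)
      (by rw [eB, eg, eq]; exact hm0) (by rw [eB, eg, eq]; exact hm)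
    rw [this, eB, eg, eq]
  constructor
  · rintro ⟨B', x', g', q', M', m0, k', t', a0, a1, c1, c2, ⟨c3, c3'⟩, c4, c5, c6, c7,
      c8, ⟨c9, c9'⟩, c10, c11, hneg⟩
    have hm0 : (m0 : ℕ) = B * B + x := by
      have h4 := c1 ⟨n - 1, by omega⟩
      have h5 := m0.is_lt
      simp only at h4
      omega
    rw [hm0] at c2
    obtain ⟨eB, ex⟩ := sq_unique c2 c3 hx
    rw [small_iff, eB] at c4 c5
    have eg : (g' : ℕ) = g := by
      rcases Nat.lt_trichotomy (g' : ℕ) g with h4 | h4 | h4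
      · exfalso
        have h5 := Wk_mono κ (show (g' : ℕ) + 1 ≤ g by omega)
        exact c5 ⟨by omega, h5.trans hMb⟩
      · exact h4
      · exfalso
        have h5 := Wk_mono κ (show g + 1 ≤ (g' : ℕ) by omega)
        exact hg2 ⟨by omega, by omega⟩
    rw [eg] at c6 c7
    rw [eB] at c9 c10 c11
    rw [ex] at c8 c9
    rw [← hr] at c8
    obtain ⟨ek, et⟩ := pr2_inj (x := (k' : ℕ)) (y := (t' : ℕ)) (x' := k) (y' := t) c8
    rw [ek, et, part2 eB c7.symm eg c6.symm c10 c11 c9] at hneg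
    exact hneg
  · intro hneg
    have ha := Nat.div_add_mod (x + 1) B
    have ha0 : (x + 1) % B < B := Nat.mod_lt _ (by omega)
    have ha1 : (x + 1) / B < B := by
      rw [Nat.div_lt_iff_lt_mul (by omega)]
      omega
    have h01 : (x + 1) / B * B + (x + 1) % B = x + 1 := by
      rw [mul_comm]; exact ha
    refine ⟨⟨B, by omega⟩, ⟨x, by omega⟩, ⟨g, by omega⟩, ⟨g ^ κ, by omega⟩,
      ⟨g ^ (κ + 2), by omega⟩, ⟨n - 1, by omega⟩, ⟨k, by omega⟩,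
      ⟨t, by omega⟩, ⟨(x + 1) % B, by omega⟩, ⟨(x + 1) / B, by omega⟩, ?_, ?_, ⟨?_, ?_⟩,
      ?_, ?_, rfl, rfl, hr, ⟨h01, ?_⟩, ha0, ha1, ?_⟩
    · intro y
      have := y.is_lt
      show ¬ (n - 1 < (y : ℕ))
      omega
    · show B * B + x = n - 1
      omega
    · exact hx
    · show 2 * B + 1 < n
      omega
    · exact small_iff.2 ⟨hg1, hMb⟩
    · intro hc
      exact hg2 (small_iff.1 hc)
    · show x + 1 < n
      omega
    · intro hq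
      apply hneg
      exact (part2 (Bf := ⟨B, by omega⟩) (Mf := ⟨g ^ (κ + 2), by omega⟩) (gf := ⟨g, by omega⟩)
        (qf := ⟨g ^ κ, by omega⟩) rfl rfl rfl rfl ha0 ha1 h01).1 hq

end Pool.Agent.Helper14.SP
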