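import Pool.Agent.Helper14.SP.Dp
import Pool.Agent.Helper14.QG.H0
import Pool.Agent.Helper12.SS.ALim

/-!
# Small sets against the polynomial-time hierarchy

If `s n` is eventually larger than every power of the length of `n`, the spectra with quantifiers over
sets of at most `s n` elements are not all in the polynomial-time hierarchy; one sentence for all `s`.
-/

set_option autoImplicit false

namespace Pool.Agent.Helper14.SP

open FirstOrder Pool.Agent.Helper20.Spectra Pool.Agent.Helper14.SS Pool.Agent.Helper12.SS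
open Pool.Agent.Helper20.QG Pool.Agent.Helper58.QD Filter

/-- `s n` is eventually at least `ℓ ^ c`, `ℓ` the length of `n` in binary, for every `c` -/
def SuperPolylog (s : ℕ → ℕ) : Prop := ∀ c : ℕ, ∃ n₀, ∀ n, n₀ ≤ n → (Nat.log 2 n + 1) ^ c ≤ s n

theorem num_v {k t c κ g n B x : ℕ} (hκ : 4 * c + 4 ≤ κ) (hg : 10 * k + 3 * t + 20 ≤ g)
    (hn : B * B + x + 1 = n) (hx : x < 2 * B + 1) (hB : 4 ≤ B) (hl : Nat.log 2 n + 1 ≤ g) :
    2 ^ ((Nat.log 2 (ux (((n + B ^ g) ^ 2 + n) ^ (k + 1)) t) + 1) ^ c) ≤ B ^ (g ^ κ) := by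
  have hsq : 4 * B ≤ B * B := Nat.mul_le_mul_right _ hB
  have hBn : B ≤ n := by omega
  have hlB : Nat.log 2 B + 1 ≤ g := by
    have := Nat.log_mono_right (b := 2) hBn
    omega
  have hn3 : n ≤ B ^ g := by
    have h6 : B * B * 2 ≤ B * B * B := Nat.mul_le_mul_left _ (by omega)
    calc n ≤ B * B * 2 := by omega
      _ ≤ B * B * B := h6
      _ = B ^ 3 := by ring
      _ ≤ B ^ g := Nat.pow_le_pow_right (by omega) (by omega)
  have h3 : (n + B ^ g) ^ 2 + n ≤ B ^ (2 * g + 3) := by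
    have h4 : (n + B ^ g) ^ 2 ≤ (2 * B ^ g) ^ 2 := Nat.pow_le_pow_left (by omega) 2
    have h5 : (2 * B ^ g) ^ 2 = 4 * (B ^ g * B ^ g) := by ring
    have h6 : B ^ g * 1 ≤ B ^ g * B ^ g := Nat.mul_le_mul_left _ (Nat.one_le_pow _ _ (by omega))
    have h7 : B ^ g * B ^ g * 5 ≤ B ^ g * B ^ g * B ^ 3 := by
      apply Nat.mul_le_mul_left
      have : B * B ≤ B ^ 3 := by
        calc B * B = B ^ 2 := by ring
          _ ≤ B ^ 3 := Nat.pow_le_pow_right (by omega) (by omega)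
      omega
    calc (n + B ^ g) ^ 2 + n ≤ B ^ g * B ^ g * 5 := by omega
      _ ≤ B ^ g * B ^ g * B ^ 3 := h7
      _ = B ^ (2 * g + 3) := by ring
  have h8 : ((n + B ^ g) ^ 2 + n) ^ (k + 1) ≤ B ^ ((2 * g + 3) * (k + 1)) := by
    rw [pow_mul]
    exact Nat.pow_le_pow_left h3 _
  obtain ⟨X, hX⟩ : ∃ X, X = 2 * ((2 * g + 3) * (k + 1) + (2 + t)) + t + 1 := ⟨_, rfl⟩
  have h9 : ux (((n + B ^ g) ^ 2 + n) ^ (k + 1)) t < B ^ X := by
    refine lt_of_le_of_lt (ux_le (by omega) h8) ?_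
    exact Nat.pow_lt_pow_right (by omega) (by omega)
  have h10 := Pool.Agent.Helper14.QG.log_pow_le (by omega) h9 (by omega)
  have h11 : X ≤ g * g := by
    have h12 : X ≤ g * (10 * k + 3 * t + 20) := by
      have h13 : X = 4 * (g * (k + 1)) + 6 * (k + 1) + 3 * t + 5 := by rw [hX]; ring
      have h14 : g * (10 * k + 3 * t + 20) =
          4 * (g * (k + 1)) + (6 * (g * k) + 3 * (g * t) + 16 * g) := by ring
      have h15 : 1 * k ≤ g * k := Nat.mul_le_mul_right _ (by omega)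
      have h16 : 1 * t ≤ g * t := Nat.mul_le_mul_right _ (by omega)
      omega
    exact h12.trans (Nat.mul_le_mul_left _ (by omega))
  have h17 : Nat.log 2 (ux (((n + B ^ g) ^ 2 + n) ^ (k + 1)) t) + 1 ≤ g ^ 4 := by
    calc _ ≤ X * (Nat.log 2 B + 1) := h10
      _ ≤ (g * g) * g := Nat.mul_le_mul h11 hlB
      _ = g ^ 3 := by ring
      _ ≤ g ^ 4 := Nat.pow_le_pow_right (by omega) (by omega)
  have h18 : (Nat.log 2 (ux (((n + B ^ g) ^ 2 + n) ^ (k + 1)) t) + 1) ^ c ≤ g ^ κ := by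
    calc _ ≤ (g ^ 4) ^ c := Nat.pow_le_pow_left h17 c
      _ = g ^ (4 * c) := by rw [← pow_mul]
      _ ≤ g ^ κ := Nat.pow_le_pow_right (by omega) (by omega)
  calc _ ≤ 2 ^ (g ^ κ) := Nat.pow_le_pow_right (by omega) h18
    _ ≤ B ^ (g ^ κ) := Nat.pow_le_pow_left (by omega) _

lemma Wk_le {κ γ : ℕ} (h : 2 ≤ γ) : Wk κ γ ≤ γ ^ (2 * κ + 5) := by
  unfold Wk
  have h2 : 1 ≤ γ ^ (κ + 2) := Nat.one_le_pow _ _ (by omega)
  have h3 : γ ^ (κ + 2) * 2 ≤ γ ^ (κ + 2) * γ := Nat.mul_le_mul_left _ h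
  calc (γ ^ (κ + 2) + 1) * γ ^ (κ + 2) ≤ (γ ^ (κ + 2) * γ) * γ ^ (κ + 2) :=
        Nat.mul_le_mul_right _ (by omega)
    _ = γ ^ (2 * κ + 5) := by ring

/-- The diagonal set: not in the polynomial-time hierarchy, one sentence for all `s`. -/
theorem diagS (hS : ∀ A : Set ℕ, IsSpectrum A → PolyHier A) :
    ∃ φ : SFm ArL 0 0, ∀ s : ℕ → ℕ, SuperPolylog s → ¬ PolyHier (arithS s φ) := by
  obtain ⟨EU, cU, hEU, hEUU⟩ := hS _ univSizes_spectrum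
  obtain ⟨e1, P1, hP1, hv1⟩ := trans t_num t_exCd t_add t_mul 3 SP rud_SP
  obtain ⟨e3, P3, hP3, hv3⟩ := trans t_num t_exCd t_add t_mul 3 (S3 EU) (rud_S3 hEU)
  obtain ⟨e, he⟩ : ∃ e, e = e1 + e3 := ⟨_, rfl⟩
  have g1 : Ev P1 e SP := Ev.mono hv1 (by omega)
  have g3 : Ev P3 e (S3 EU) := Ev.mono hv3 (by omega)
  obtain ⟨κ, hκ⟩ : ∃ κ, κ = 4 * cU + 4 := ⟨_, rfl⟩
  obtain ⟨φ, hφ⟩ := NS_DpS hP1 hP3 κ
  refine ⟨φ, fun s hs hD => ?_⟩
  obtain ⟨E', c', hE', hX⟩ := hD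
  -- `E'` without zero is a spectrum
  have hE0 : IsSpectrum {m | 1 ≤ m ∧ m ∈ E'} := by
    have h1 := hE'.preimage Polynomial.X
    have h2 : IsRudimentary {m | 1 ≤ m ∧ m ∈ E'} := by
      simpa using h1
    exact h2.isSpectrum (by rintro ⟨h3, _⟩; omega)
  obtain ⟨k, Θ, hΘ⟩ := spectrum_blocks hE0
  obtain ⟨t, rfl⟩ := exists_blk Θ
  have hk : ∀ m, 1 ≤ m → (m ∈ E' ↔ ux (m ^ (k + 1)) t ∈ univSizes) := by
    intro m hm
    have h1 := hΘ m hm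
    rw [← mem_univSizes t] at h1
    have h2 : (m ^ (k + 1) + 2 + t) ^ 2 + t = ux (m ^ (k + 1)) t := by unfold ux; ring
    rw [h2] at h1
    rw [← h1]
    exact ⟨fun h => ⟨hm, h⟩, fun h => h.2⟩
  -- the number `n`
  obtain ⟨D, hD⟩ : ∃ D, D = (c' + 1) * (2 * κ + 5) := ⟨_, rfl⟩
  obtain ⟨n₀, hn₀⟩ := hs D
  obtain ⟨B₀, hB₀⟩ := Pool.Agent.Helper14.QG.log_growth (D + 1) 2
  obtain ⟨x, hx⟩ : ∃ x, (k + t) ^ 2 + k = x := ⟨_, rfl⟩
  obtain ⟨R, hR⟩ : ∃ R, R = 10 * k + 3 * t + 20 + e + 3 := ⟨_, rfl⟩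
  obtain ⟨Z, hZ⟩ : ∃ Z, Z = 2 ^ R := ⟨_, rfl⟩
  obtain ⟨B, hB⟩ : ∃ B, B = n₀ + B₀ + x + Z + 4 := ⟨_, rfl⟩
  obtain ⟨n, hn⟩ : ∃ n, B * B + x + 1 = n := ⟨_, rfl⟩
  have hxB : x < 2 * B + 1 := by omega
  have hBB : 4 * B ≤ B * B := Nat.mul_le_mul_right _ (by omega)
  have hBn : B ≤ n := by omega
  have hnB : n ≤ (B + 1) ^ 2 := by
    have : (B + 1) ^ 2 = B * B + 2 * B + 1 := by ring
    omega
  obtain ⟨l, hl⟩ : ∃ l, l = Nat.log 2 n + 1 := ⟨_, rfl⟩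
  have hlR : R ≤ l := by
    have h1 : R ≤ Nat.log 2 n := Nat.le_log_of_pow_le (by norm_num) (by rw [← hZ]; omega)
    omega
  have hlD : l ^ (D + 1) ≤ B := by
    rw [hl]
    exact hB₀ B (by omega) n hnB
  have hlD' : l ^ D < B := by
    have h1 : l ^ D * 1 < l ^ D * l :=
      Nat.mul_lt_mul_of_pos_left (by omega) (Nat.pow_pos (by omega))
    rw [pow_succ] at hlD
    omega
  have hls : l ^ D ≤ s n := by
    rw [hl]
    exact hn₀ n (by omega)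
  -- the exponent `g`
  obtain ⟨g, hg⟩ : ∃ g, g = Nat.findGreatest (fun γ => Wk κ γ < B ∧ Wk κ γ ≤ s n) B := ⟨_, rfl⟩
  obtain ⟨γ, hγ⟩ : ∃ γ, γ = l ^ (c' + 1) := ⟨_, rfl⟩
  have hlγ : l ≤ γ := by rw [hγ]; exact Nat.le_self_pow (by omega) _
  have hWγ : Wk κ γ ≤ l ^ D := by
    refine (Wk_le (by omega)).trans ?_
    rw [hγ, ← pow_mul, hD]
  have hγg : γ ≤ g := by
    rw [hg]
    have h1 := le_Wk κ γ
    exact Nat.le_findGreatest (by omega) ⟨by omega, by omega⟩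
  obtain ⟨q1, q2⟩ : Wk κ g < B ∧ Wk κ g ≤ s n := by
    rw [hg]
    have h1 := le_Wk κ γ
    exact Nat.findGreatest_spec (P := fun γ => Wk κ γ < B ∧ Wk κ γ ≤ s n) (m := γ) (by omega)
      ⟨by omega, by omega⟩
  have q3 : ¬ (Wk κ (g + 1) < B ∧ Wk κ (g + 1) ≤ s n) := by
    intro hc
    have h1 := le_Wk κ (g + 1)
    have h2 : g + 1 ≤ Nat.findGreatest (fun γ => Wk κ γ < B ∧ Wk κ γ ≤ s n) B :=
      Nat.le_findGreatest (by omega) hc
    omega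
  have nb : Nb n (s n) B x g κ e := ⟨hn, hxB, by omega, q2, q1.le, by omega⟩
  have h5 := DpS_iff g1 g3 nb q1 q3 hx (by omega) (by omega) Fin.elim0 Fin.elim0
  have hp : 2 ^ ((Nat.log 2 n + 1) ^ c') ≤ B ^ g := by
    rw [← hl]
    have h1 : l ^ c' ≤ l ^ (c' + 1) := Nat.pow_le_pow_right (by omega) (by omega)
    calc 2 ^ (l ^ c') ≤ 2 ^ g := Nat.pow_le_pow_right (by omega) (by omega)
      _ ≤ B ^ g := Nat.pow_le_pow_left (by omega) g
  have h6 := hX n (by omega) (B ^ g) hp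
  have h7 := hk ((n + B ^ g) ^ 2 + n) (by omega)
  have h8 := hEUU (ux (((n + B ^ g) ^ 2 + n) ^ (k + 1)) t) (one_le_ux _ _) (B ^ (g ^ κ))
    (num_v hκ.ge (by omega) hn hxB (by omega) (by omega))
  rw [← pow_two, ← h8, ← h7, ← h6] at h5
  have h9 : n ∈ arithS s φ ↔ DpS P1 P3 κ n (s n) Fin.elim0 Fin.elim0 := by
    rw [← hφ]
    exact ⟨fun h => h.2, fun h => ⟨by omega, h⟩⟩
  rw [h9] at h5
  tauto

/-- Small sets against the polynomial-time hierarchy. -/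
theorem smallSetsPH :
    (∃ (L : FirstOrder.Language.{0, 0}) (_ : Finite (Σ l, L.Functions l))
      (_ : Finite (Σ l, L.Relations l)) (Φ : SFm L 0 0),
      ∀ s : ℕ → ℕ, SuperPolylog s → ¬ PolyHier (specS s Φ)) ∧
    ((∀ A, IsSpectrum A → PolyHier A) → ∃ φ : SFm ArL 0 0,
      ∀ s : ℕ → ℕ, SuperPolylog s → ¬ PolyHier (arithS s φ)) := by
  refine ⟨?_, diagS⟩
  by_cases hQ : ∀ A, IsSpectrum A → PolyHier A
  · obtain ⟨φ, hφ⟩ := diagS hQ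
    obtain ⟨Φ, hΦ⟩ := arith_unif φ
    refine ⟨ArL, inferInstance, inferInstance, Φ, fun s hs => ?_⟩
    rw [hΦ]
    exact hφ s hs
  · push Not at hQ
    obtain ⟨A, hA, hAr⟩ := hQ
    obtain ⟨L, hF, hR, Φ, hΦ⟩ := fo_unif hA
    refine ⟨L, hF, hR, Φ, fun s _ => ?_⟩
    rw [hΦ]
    exact hAr

end Pool.Agent.Helper14.SP
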